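import Pool.Agent.Helper4.CDX.M_WALK

/-!
# MP_a41ee4_co: bounded rational polyhedra are bounded over the reals
-/

set_option autoImplicit false

namespace Pool.Agent.Helper4.CDX

open Module Pool.Agent.Helper4.CD

/-- A nonzero real recession direction gives a nonzero rational one. -/
theorem cone_rat {d f : ℕ} (c : Fin f → Dual ℚ (Fin d → ℚ))
    (hc : ∀ x : Fin d → ℚ, (∀ k, c k x = 0) → x = 0) (N : ℕ) :
    ∀ x : Fin d → ℝ, x ≠ 0 → (∀ k, 0 ≤ row (mat c) k x) →
      (Finset.univ.filter fun k => row (mat c) k x ≠ 0).card ≤ N →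
      ∃ x' : Fin d → ℚ, x' ≠ 0 ∧ ∀ k, 0 ≤ c k x' := by
  classical
  have hker : ∀ y : Fin d → ℝ, (∀ k, row (mat c) k y = 0) → y = 0 := fun y hy =>
    ker_real c Set.univ (fun x hx => hc x fun k => hx k trivial) fun k _ => hy k
  induction N with
  | zero =>
    intro x hx _ hN
    exfalso
    refine hx (hker x fun k => ?_)
    by_contra hk
    have : 0 < (Finset.univ.filter fun k => row (mat c) k x ≠ 0).card :=
      Finset.card_pos.2 ⟨k, by simpa using hk⟩
    omega
  | succ N ih =>
    intro x hx hpos hN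
    by_cases hL : ∀ y : Fin d → ℝ, (∀ k, row (mat c) k x = 0 → row (mat c) k y = 0) → ∃ a : ℝ, y = a • x
    · obtain ⟨x1, h1, h2⟩ := exists_rat c hx
      obtain ⟨a, ha⟩ := hL (cst x1) fun k hk => by rw [row_cst, h2 k hk]; simp
      have ha0 : a ≠ 0 := by
        intro h
        rw [h, zero_smul] at ha
        exact cst_ne_zero h1 ha
      have h3 : ∀ k, ((c k x1 : ℚ) : ℝ) = a * row (mat c) k x := fun k => by rw [← row_cst, ha, row_smul]
      rcases lt_or_gt_of_ne ha0 with h | h
      · refine ⟨-x1, neg_ne_zero.2 h1, fun k => ?_⟩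
        have h4 : ((c k x1 : ℚ) : ℝ) ≤ 0 := by
          rw [h3 k]
          exact mul_nonpos_of_nonpos_of_nonneg h.le (hpos k)
        have h5 : c k x1 ≤ 0 := by exact_mod_cast h4
        rw [map_neg]
        linarith
      · refine ⟨x1, h1, fun k => ?_⟩
        have h4 : (0 : ℝ) ≤ ((c k x1 : ℚ) : ℝ) := by
          rw [h3 k]
          exact mul_nonneg h.le (hpos k)
        exact_mod_cast h4
    · push Not at hL
      obtain ⟨y0, hy0, hny0⟩ := hL
      have hk0 : ∃ k, row (mat c) k y0 ≠ 0 := by
        by_contra h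
        push Not at h
        exact hny0 0 (by rw [zero_smul]; exact hker y0 h)
      obtain ⟨y, hy, hny, k1, hk1⟩ : ∃ y : Fin d → ℝ, (∀ k, row (mat c) k x = 0 → row (mat c) k y = 0) ∧
          (∀ a : ℝ, y ≠ a • x) ∧ ∃ k, row (mat c) k y < 0 := by
        obtain ⟨k, hk⟩ := hk0
        rcases lt_or_gt_of_ne hk with h | h
        · exact ⟨y0, hy0, hny0, k, h⟩
        · refine ⟨-y0, fun l hl => by rw [row_neg, hy0 l hl, neg_zero], fun a ha => ?_, k, ?_⟩
          · exact hny0 (-a) (by rw [neg_smul, ← ha, neg_neg])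
          · rw [row_neg]; linarith
      set S : Finset (Fin f) := Finset.univ.filter fun k => row (mat c) k y < 0 with hS
      have hSne : S.Nonempty := ⟨k1, by simpa [hS] using hk1⟩
      obtain ⟨k2, hk2S, hk2⟩ := Finset.exists_min_image S (fun k => row (mat c) k x / (-row (mat c) k y)) hSne
      have hk2neg : row (mat c) k2 y < 0 := by simpa [hS] using hk2S
      set t := row (mat c) k2 x / (-row (mat c) k2 y) with ht
      have ht0 : 0 ≤ t := div_nonneg (hpos k2) (neg_pos.2 hk2neg).le
      have hw : ∀ k, 0 ≤ row (mat c) k (x + t • y) := by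
        intro k
        rw [row_add, row_smul]
        rcases lt_or_ge (row (mat c) k y) 0 with h | h
        · have h1 := hk2 k (by simpa [hS] using h)
          rw [le_div_iff₀ (neg_pos.2 h)] at h1
          linarith
        · have := mul_nonneg ht0 h
          have := hpos k
          linarith
      have hw2 : row (mat c) k2 (x + t • y) = 0 := by
        rw [row_add, row_smul, ht, div_neg, neg_mul, div_mul_cancel₀ _ hk2neg.ne]
        ring
      have hxk2 : row (mat c) k2 x ≠ 0 := fun h => hk2neg.ne (hy k2 h)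
      have hne : x + t • y ≠ 0 := by
        intro h
        have ht1 : t ≠ 0 := by
          intro h1
          rw [h1, zero_smul, add_zero] at h
          exact hx h
        refine hny (-t⁻¹) ?_
        have h2 : t • y = -x := by
          rw [eq_neg_iff_add_eq_zero, add_comm]; exact h
        rw [neg_smul, ← smul_neg, ← h2, smul_smul, inv_mul_cancel₀ ht1, one_smul]
      refine ih (x + t • y) hne hw ?_
      have hlt : (Finset.univ.filter fun k => row (mat c) k (x + t • y) ≠ 0) ⊂
          (Finset.univ.filter fun k => row (mat c) k x ≠ 0) := by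
        rw [Finset.ssubset_iff_of_subset]
        · exact ⟨k2, by simpa using hxk2, by simpa using hw2⟩
        · intro k hk
          simp only [Finset.mem_filter, Finset.mem_univ, true_and] at hk ⊢
          intro h
          apply hk
          rw [row_add, row_smul, h, hy k h]
          ring
      have := Finset.card_lt_card hlt
      omega

/-- The real recession cone is trivial. -/
theorem cone_real {d f : ℕ} (c : Fin f → Dual ℚ (Fin d → ℚ)) (hb : Bdd c) (x : Fin d → ℝ)
    (hx : ∀ k, 0 ≤ row (mat c) k x) : x = 0 := by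
  by_contra h
  obtain ⟨x', h1, h2⟩ := cone_rat c (fun x hx => hb x fun k => (hx k).ge) _ x h hx le_rfl
  exact h1 (hb x' h2)

/-- A real polyhedron with trivial recession cone is bounded. -/
theorem bounded_of_cone {d f : ℕ} (A : Matrix (Fin f) (Fin d) ℚ) (b : Fin f → ℚ)
    (h : ∀ x : Fin d → ℝ, (∀ k, 0 ≤ row A k x) → x = 0) : Bornology.IsBounded (RPoly A b) := by
  classical
  let F : (Fin d → ℝ) → ℝ := fun x => ∑ k, max (-row A k x) 0
  have hF : Continuous F := by
    refine continuous_finset_sum _ fun k _ => ?_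
    exact (continuous_row A k).neg.max continuous_const
  have hFhom : ∀ (a : ℝ) (x : Fin d → ℝ), 0 ≤ a → F (a • x) = a * F x := by
    intro a x ha
    simp only [F, Finset.mul_sum]
    refine Finset.sum_congr rfl fun k _ => ?_
    rw [row_smul, mul_max_of_nonneg _ _ ha, mul_zero, mul_neg]
  have hFpos : ∀ x, x ≠ 0 → 0 < F x := by
    intro x hx
    obtain ⟨k, hk⟩ : ∃ k, row A k x < 0 := by
      by_contra h1
      push Not at h1
      exact hx (h x h1)
    refine lt_of_lt_of_le (?_ : 0 < max (-row A k x) 0) ?_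
    · exact lt_max_of_lt_left (neg_pos.2 hk)
    · exact Finset.single_le_sum (f := fun k => max (-row A k x) 0) (fun l _ => le_max_right _ _)
        (Finset.mem_univ k)
  have hcomp : IsCompact (Metric.sphere (0 : Fin d → ℝ) 1) := isCompact_sphere 0 1
  rcases (Metric.sphere (0 : Fin d → ℝ) 1).eq_empty_or_nonempty with he | hne
  · refine Bornology.IsBounded.subset (Bornology.isBounded_singleton (x := (0 : Fin d → ℝ))) fun x _ => ?_
    by_contra hx
    have hx0 : x ≠ 0 := hx
    have : (‖x‖⁻¹ • x) ∈ Metric.sphere (0 : Fin d → ℝ) 1 := by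
      rw [mem_sphere_zero_iff_norm, norm_smul, norm_inv, norm_norm, inv_mul_cancel₀ (norm_ne_zero_iff.2 hx0)]
    rw [he] at this
    exact this
  · obtain ⟨x0, hx0, hmin⟩ := hcomp.exists_isMinOn hne hF.continuousOn
    have hx00 : x0 ≠ 0 := by
      rintro rfl
      simp at hx0
    set δ := F x0 with hδ
    have hδ0 : 0 < δ := hFpos x0 hx00
    rw [Metric.isBounded_iff_subset_closedBall 0]
    refine ⟨(∑ k, max (-(b k : ℝ)) 0) / δ, fun z hz => ?_⟩
    rw [mem_closedBall_zero_iff, le_div_iff₀ hδ0]
    have h1 : F z ≤ ∑ k, max (-(b k : ℝ)) 0 := by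
      refine Finset.sum_le_sum fun k _ => ?_
      exact max_le_max (neg_le_neg (hz k)) le_rfl
    refine le_trans ?_ h1
    rcases eq_or_ne z 0 with h2 | h2
    · rw [h2, norm_zero, zero_mul]
      exact Finset.sum_nonneg fun k _ => le_max_right _ _
    · have h3 : ‖z‖ ≠ 0 := norm_ne_zero_iff.2 h2
      have h4 : (‖z‖⁻¹ • z) ∈ Metric.sphere (0 : Fin d → ℝ) 1 := by
        rw [mem_sphere_zero_iff_norm, norm_smul, norm_inv, norm_norm, inv_mul_cancel₀ h3]
      have h5 := hmin h4
      have h6 : z = ‖z‖ • (‖z‖⁻¹ • z) := by rw [smul_smul, mul_inv_cancel₀ h3, one_smul]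
      have h7 : F z = ‖z‖ * F (‖z‖⁻¹ • z) := by
        conv_lhs => rw [h6]
        exact hFhom _ _ (norm_nonneg z)
      rw [h7]
      exact mul_le_mul_of_nonneg_left h5 (norm_nonneg z)

end Pool.Agent.Helper4.CDX
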