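import Pool.Agent.Helper4.CDX.M_SP

/-!
# MP_a41ee4_co: dimension, vertices and facets of a real polyhedron
-/

set_option autoImplicit false

namespace Pool.Agent.Helper4.CDX

open Module Pool.Agent.Helper4.CD

/-- The facets of a subset `P` of `ℝ^d`: the exposed faces of dimension `d - 1`. -/
def Facets {d : ℕ} (P : Set (Fin d → ℝ)) : Set (Set (Fin d → ℝ)) :=
  {F | IsExposed ℝ P F ∧ F.Nonempty ∧ finrank ℝ (vectorSpan ℝ F) + 1 = d}

section

variable {d f : ℕ} (A : Matrix (Fin f) (Fin d) ℚ) (b : Fin f → ℚ)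

/-- The linear form of a row. -/
noncomputable def rowL (k : Fin f) : (Fin d → ℝ) →ₗ[ℝ] ℝ where
  toFun := row A k
  map_add' := row_add A k
  map_smul' := fun a x => by rw [row_smul]; rfl

theorem rowL_apply (k : Fin f) (x : Fin d → ℝ) : rowL A k x = row A k x := rfl

theorem convex_RPoly : Convex ℝ (RPoly A b) := by
  intro x hx y hy a e ha he hae k
  rw [row_add, row_smul, row_smul]
  have h1 := hx k
  have h2 := hy k
  have h3 : (b k : ℝ) = a * b k + e * b k := by rw [← add_mul, hae, one_mul]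
  rw [h3]
  exact add_le_add (mul_le_mul_of_nonneg_left h1 ha) (mul_le_mul_of_nonneg_left h2 he)

/-- The points at which all rows are slack. -/
def OPoly : Set (Fin d → ℝ) := {z | ∀ k, (b k : ℝ) < row A k z}

theorem isOpen_OPoly : IsOpen (OPoly A b) := by
  have : OPoly A b = ⋂ k, {z | (b k : ℝ) < row A k z} := by
    ext z; simp [OPoly]
  rw [this]
  exact isOpen_iInter_of_finite fun k => isOpen_lt continuous_const (continuous_row A k)

theorem OPoly_subset : OPoly A b ⊆ RPoly A b := fun _ hz k => (hz k).le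

theorem span_top {z : Fin d → ℝ} (hz : z ∈ OPoly A b) {P : Set (Fin d → ℝ)} (hP : OPoly A b ⊆ P) :
    finrank ℝ (vectorSpan ℝ P) = d := by
  have h1 : affineSpan ℝ (OPoly A b) = ⊤ := (isOpen_OPoly A b).affineSpan_eq_top ⟨z, hz⟩
  have h2 : affineSpan ℝ P = ⊤ := top_unique (h1 ▸ affineSpan_mono ℝ hP)
  have h3 : vectorSpan ℝ P = ⊤ := by
    rw [← direction_affineSpan, h2, AffineSubspace.direction_top]
  rw [h3, finrank_top]
  simp

/-- The face of row `k`. -/
def face (k : Fin f) : Set (Fin d → ℝ) := {z | z ∈ RPoly A b ∧ row A k z = b k}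

variable {A b}

/-- A point at which only row `k` is tight spans the kernel of row `k`. -/
theorem span_face {k : Fin f} {x : Fin d → ℝ} (hx : row A k x = b k) (hs : ∀ l, l ≠ k → (b l : ℝ) < row A l x) :
    vectorSpan ℝ (face A b k) = LinearMap.ker (rowL A k) := by
  have hxP : x ∈ RPoly A b := by
    intro l
    by_cases h : l = k
    · rw [h, hx]
    · exact (hs l h).le
  apply le_antisymm
  · rw [vectorSpan_def, Submodule.span_le]
    rintro _ ⟨y, hy, z, hz, rfl⟩
    change y - z ∈ _
    rw [SetLike.mem_coe, LinearMap.mem_ker, rowL_apply, row_sub, hy.2, hz.2, sub_self]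
  · intro y hy
    rw [LinearMap.mem_ker, rowL_apply] at hy
    obtain ⟨ε, hε, h1⟩ := move_on A b (g := y) hxP (fun l hl => hs l (by rintro rfl; exact hl.ne hy))
    have h2 : x + ε • y ∈ face A b k := ⟨h1, by rw [row_add, row_smul, hy, hx]; ring⟩
    have h3 : (x + ε • y) - x ∈ vectorSpan ℝ (face A b k) := vsub_mem_vectorSpan ℝ h2 ⟨hxP, hx⟩
    have h4 : (x + ε • y) - x = ε • y := by abel
    rw [h4] at h3
    have h5 := (vectorSpan ℝ (face A b k)).smul_mem ε⁻¹ h3
    rwa [smul_smul, inv_mul_cancel₀ hε.ne', one_smul] at h5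

theorem face_exposed {k : Fin f} {x : Fin d → ℝ} (hx : x ∈ face A b k) : IsExposed ℝ (RPoly A b) (face A b k) := by
  intro _
  refine ⟨-(LinearMap.toContinuousLinearMap (rowL A k)), ?_⟩
  ext z
  constructor
  · intro hz
    refine ⟨hz.1, fun y hy => ?_⟩
    change -(row A k y) ≤ -(row A k z)
    rw [hz.2]
    exact neg_le_neg (hy k)
  · intro hz
    refine ⟨hz.1, le_antisymm ?_ (hz.1 k)⟩
    have h1 : -(row A k x) ≤ -(row A k z) := hz.2 x hx.1
    rw [hx.2] at h1
    linarith

/-- The facets are the faces of the rows, if for every row there is a point at which only this row is tight. -/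
theorem facets_eq (hpt : ∀ k, ∃ x : Fin d → ℝ, row A k x = b k ∧ ∀ l, l ≠ k → (b l : ℝ) < row A l x)
    (hne : ∀ k, rowL A k ≠ 0) {z0 : Fin d → ℝ} (hz0 : z0 ∈ OPoly A b) (hd : 0 < d → 0 < f) :
    Facets (RPoly A b) = Set.range (face A b) := by
  classical
  have hker : ∀ k, finrank ℝ (LinearMap.ker (rowL A k)) + 1 = d := by
    intro k
    have := Module.Dual.finrank_ker_add_one_of_ne_zero (K := ℝ) (f := rowL A k) (hne k)
    simpa using this
  have hmem : ∀ k (x : Fin d → ℝ), row A k x = b k → (∀ l, l ≠ k → (b l : ℝ) < row A l x) →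
      x ∈ face A b k := by
    intro k x hx hs
    refine ⟨fun l => ?_, hx⟩
    by_cases h : l = k
    · rw [h, hx]
    · exact (hs l h).le
  ext F
  constructor
  · rintro ⟨hexp, hFne, hdim⟩
    obtain ⟨l, hl⟩ := hexp hFne
    have hFP : F ⊆ RPoly A b := hexp.subset
    have hconv : Convex ℝ F := hexp.convex (convex_RPoly A b)
    obtain ⟨k, hk⟩ : ∃ k, F ⊆ face A b k := by
      by_contra hcon
      push Not at hcon
      have hp : ∀ k, ∃ p ∈ F, (b k : ℝ) < row A k p := by
        intro k
        obtain ⟨p, hp1, hp2⟩ := Set.not_subset.1 (hcon k)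
        refine ⟨p, hp1, lt_of_le_of_ne (hFP hp1 k) fun h => hp2 ⟨hFP hp1, h.symm⟩⟩
      choose p hpF hps using hp
      have hf : 0 < f := hd (by omega)
      have hf' : (0 : ℝ) < f := by exact_mod_cast hf
      set q : Fin d → ℝ := ∑ k : Fin f, ((f : ℝ)⁻¹) • p k with hq
      have hqF : q ∈ F := by
        refine hconv.sum_mem (fun k _ => (inv_pos.2 hf').le) ?_ fun k _ => hpF k
        simp [hf'.ne']
      have hqO : q ∈ OPoly A b := by
        intro j
        rw [hq, row_sum]
        have h1 : (b j : ℝ) = ∑ k : Fin f, (f : ℝ)⁻¹ * (b j : ℝ) := by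
          rw [Finset.sum_const, Finset.card_univ, Fintype.card_fin, nsmul_eq_mul, ← mul_assoc,
            mul_inv_cancel₀ hf'.ne', one_mul]
        rw [h1]
        refine Finset.sum_lt_sum (fun k _ => ?_) ⟨j, Finset.mem_univ j, ?_⟩
        · rw [row_smul]
          exact mul_le_mul_of_nonneg_left (hFP (hpF k) j) (inv_pos.2 hf').le
        · rw [row_smul]
          exact mul_lt_mul_of_pos_left (hps j) (inv_pos.2 hf')
      have hl0 : ∀ y : Fin d → ℝ, l y ≤ 0 := by
        intro y
        obtain ⟨ε, hε, h1⟩ := move_on A b (g := y) (OPoly_subset A b hqO) fun k _ => hqO k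
        rw [hl] at hqF
        have h2 := hqF.2 _ h1
        rw [map_add, map_smul, smul_eq_mul] at h2
        by_contra h
        push Not at h
        have := mul_pos hε h
        linarith
      have hl1 : ∀ y : Fin d → ℝ, l y = 0 := by
        intro y
        refine le_antisymm (hl0 y) ?_
        have := hl0 (-y)
        rw [map_neg] at this
        linarith
      have hFeq : F = RPoly A b := by
        rw [hl]
        ext z
        refine ⟨fun h => h.1, fun h => ⟨h, fun y _ => by rw [hl1, hl1]⟩⟩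
      have := span_top A b hz0 (P := F) (hFeq ▸ OPoly_subset A b)
      omega
    obtain ⟨x, hx1, hx2⟩ := hpt k
    have hspan := span_face hx1 hx2
    have hle : vectorSpan ℝ F ≤ LinearMap.ker (rowL A k) := hspan ▸ vectorSpan_mono ℝ hk
    have heq : vectorSpan ℝ F = LinearMap.ker (rowL A k) := by
      apply Submodule.eq_of_le_of_finrank_eq hle
      have := hker k
      omega
    refine ⟨k, ?_⟩
    apply Set.Subset.antisymm ?_ hk
    intro z hz
    obtain ⟨x0, hx0⟩ := hFne
    have h1 : z - x0 ∈ vectorSpan ℝ F := by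
      rw [heq, LinearMap.mem_ker, rowL_apply, row_sub, hz.2, (hk hx0).2, sub_self]
    have h2 : ∀ w ∈ vectorSpan ℝ F, l w = 0 := by
      intro w hw
      rw [vectorSpan_def] at hw
      refine Submodule.span_induction ?_ (map_zero _) (fun a e _ _ ha he => by rw [map_add, ha, he, add_zero])
        (fun a w _ hw => by rw [map_smul, hw, smul_zero]) hw
      rintro _ ⟨y, hy, y', hy', rfl⟩
      change l (y - y') = 0
      rw [hl] at hy hy'
      rw [map_sub, sub_eq_zero]
      exact le_antisymm (hy'.2 y hy.1) (hy.2 y' hy'.1)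
    have h3 := h2 _ h1
    rw [map_sub, sub_eq_zero] at h3
    rw [hl] at hx0 ⊢
    exact ⟨hz.1, fun y hy => by rw [h3]; exact hx0.2 y hy⟩
  · rintro ⟨k, rfl⟩
    obtain ⟨x, hx1, hx2⟩ := hpt k
    have hx := hmem k x hx1 hx2
    refine ⟨face_exposed hx, ⟨x, hx⟩, ?_⟩
    rw [span_face hx1 hx2]
    exact hker k

theorem face_inj (hpt : ∀ k, ∃ x : Fin d → ℝ, row A k x = b k ∧ ∀ l, l ≠ k → (b l : ℝ) < row A l x) :
    Function.Injective (face A b) := by
  intro k l hkl
  by_contra hne
  obtain ⟨x, hx1, hx2⟩ := hpt k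
  have hx : x ∈ face A b k := by
    refine ⟨fun j => ?_, hx1⟩
    by_cases h : j = k
    · rw [h, hx1]
    · exact (hx2 j h).le
  rw [hkl] at hx
  exact (hx2 l (Ne.symm hne)).ne' hx.2

end

end Pool.Agent.Helper4.CDX
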