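import Pool.Agent.Helper4.CD.M_FIN2
import Pool.Agent.Helper4.CD.M_TPB
import Pool.Agent.Helper4.CD.M_LIFTB
import Pool.Agent.Helper4.CD.M_PRAB
import Pool.Agent.Helper9.CD.M_TR
import Pool.Agent.Helper21.CD.M_AVO
import Pool.Agent.Helper29.CD.M_PROP
import Pool.Agent.Helper37.CD.M_LAM
import Pool.Agent.Helper33.CD.M_GEN
import Pool.Agent.Helper2.CD.M_PM
import Pool.Agent.Helper2.CD.M_BAS
import Pool.Agent.Helper96.CD.M_CL
import Pool.Agent.Helper94.CD.M_LIM
import Pool.Agent.Helper41.CD.M_PRBB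

/-!
# MP_a41ee4_co: the equivalences behind StrongDStep, as a helper theorem
-/

set_option autoImplicit false

namespace Pool.Agent.Helper4.CDX

open Pool.Agent.Helper4.CD

/-- The main implication for bounded spindles. -/
theorem coreB : StCOREB :=
  hCOREB Pool.Agent.Helper9.CD.hTR Pool.Agent.Helper21.CD.hAVO
    (Pool.Agent.Helper33.CD.hGEN (Pool.Agent.Helper37.CD.hLAM Pool.Agent.Helper29.CD.hPROP))
    (Pool.Agent.Helper94.CD.hLIM Pool.Agent.Helper96.CD.hCL Pool.Agent.Helper29.CD.hPROP Pool.Agent.Helper2.CD.hPM)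
    (Pool.Agent.Helper4.CDLIFTB.hLIFTB Pool.Agent.Helper2.CD.hBAS) Pool.Agent.Helper4.CDTPB.hTPB

/-- The equivalences. -/
theorem tfae (K : Type) [Field K] [LinearOrder K] [IsStrictOrderedRing K] :
    List.TFAE [AsymDStepB K, DStepB K, DStep K, NearBound K] :=
  hMAIN coreB (Pool.Agent.Helper41.CD.hPRBB Pool.Agent.Helper4.CDPRAB.hPRAB) K

end Pool.Agent.Helper4.CDX
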