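import Pool.Agent.Helper4.CDX.M_FAC
import Pool.Agent.Helper4.CDX.M_TFAE

/-!
# MP_a41ee4_co: a failure of the asymptotic bound over the rationals gives rational polytopes of large circuit diameter
-/

set_option autoImplicit false

namespace Pool.Agent.Helper4.CDX

open Module Pool.Agent.Helper4.CD

/-- A vertex of the rational polyhedron is an extreme point of the real polyhedron. -/
theorem extreme {d f : ℕ} (c : Fin f → Dual ℚ (Fin d → ℚ)) (b : Fin f → ℚ) {u : Fin d → ℚ}
    (h : IsVertex c b u) : cst u ∈ (RPoly (mat c) b).extremePoints ℝ := by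
  have huP : cst u ∈ RPoly (mat c) b := (poly_cst c b u).2 h.1
  rw [mem_extremePoints]
  refine ⟨huP, ?_⟩
  have key : ∀ x ∈ RPoly (mat c) b, ∀ y ∈ RPoly (mat c) b, cst u ∈ openSegment ℝ x y → x = cst u := by
    intro x hx y hy hxy
    obtain ⟨s, t, hs, ht, hst, hu⟩ := hxy
    have h1 : x - cst u = 0 := by
      refine ker_real c {k | c k u = b k} (fun w hw => h.2 w fun k hk => hw k hk) fun k hk => ?_
      have h2 : row (mat c) k (cst u) = b k := by rw [row_cst]; exact_mod_cast hk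
      have h3 : s * row (mat c) k x + t * row (mat c) k y = b k := by
        rw [← h2, ← hu, row_add, row_smul, row_smul]
      have h4 := hx k
      have h5 := hy k
      have h6 : (b k : ℝ) = s * b k + t * b k := by rw [← add_mul, hst, one_mul]
      have h7 : row (mat c) k x ≤ b k := by
        have h8 : s * row (mat c) k x ≤ s * b k := by
          have := mul_le_mul_of_nonneg_left h5 ht.le
          linarith
        exact le_of_mul_le_mul_left h8 hs
      rw [row_sub, h2]
      exact sub_eq_zero.2 (le_antisymm h7 h4)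
    exact sub_eq_zero.1 h1
  intro x hx y hy hxy
  refine ⟨key x hx y hy hxy, key y hy x hx ?_⟩
  rw [openSegment_symm]
  exact hxy

/-- The polyhedron of a bounded spindle with `2 d` rows. -/
theorem spindle_real {d : ℕ} {c : Fin (2 * d) → Dual ℚ (Fin d → ℚ)} {u v : Fin d → ℚ} (hs : Spindle c u v)
    (hb : Bdd c) :
    Bornology.IsBounded (RPoly (mat c) (rhs c u v)) ∧
      finrank ℝ (vectorSpan ℝ (RPoly (mat c) (rhs c u v))) = d ∧
      (∀ k, ∃ z, z ∉ RPoly (mat c) (rhs c u v) ∧ ∀ l, l ≠ k → ((rhs c u v l : ℚ) : ℝ) ≤ row (mat c) l z) ∧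
      (Facets (RPoly (mat c) (rhs c u v))).ncard = 2 * d ∧
      cst u ∈ (RPoly (mat c) (rhs c u v)).extremePoints ℝ ∧
      cst v ∈ (RPoly (mat c) (rhs c u v)).extremePoints ℝ ∧
      ∀ n, RWalk (mat c) (rhs c u v) n (cst u) (cst v) → Walk c (rhs c u v) n u v := by
  have hmid : cst ((1 / 2 : ℚ) • (u + v)) ∈ OPoly (mat c) (rhs c u v) := by
    intro k
    rw [row_cst]
    have h1 : rhs c u v k < c k ((1 / 2 : ℚ) • (u + v)) := by
      rw [map_smul, map_add, smul_eq_mul, rhs]
      rcases lt_or_gt_of_ne (hs.ne k) with h | h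
      · rw [min_eq_left h.le]; linarith
      · rw [min_eq_right h.le]; linarith
    exact_mod_cast h1
  have hpt : ∀ k, ∃ x : Fin d → ℝ, row (mat c) k x = ((rhs c u v k : ℚ) : ℝ) ∧
      ∀ l, l ≠ k → ((rhs c u v l : ℚ) : ℝ) < row (mat c) l x := by
    intro k
    obtain ⟨x, h1, h2⟩ := facet_pt hs k
    refine ⟨cst x, by rw [row_cst, h1], fun l hl => ?_⟩
    rw [row_cst]
    exact_mod_cast h2 l hl
  have hne : ∀ k, rowL (mat c) k ≠ 0 := by
    intro k h
    have h1 : row (mat c) k (cst u) = 0 := by rw [← rowL_apply, h]; rfl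
    have h2 : row (mat c) k (cst v) = 0 := by rw [← rowL_apply, h]; rfl
    rw [row_cst] at h1 h2
    exact hs.ne k (by exact_mod_cast h1.trans h2.symm)
  have hvu : IsVertex c (rhs c u v) u :=
    ⟨fun k => min_le_left _ _, fun y hy => hs.vu y fun k hk => hy k (min_eq_left hk.le).symm⟩
  have hvv : IsVertex c (rhs c u v) v :=
    ⟨fun k => min_le_right _ _, fun y hy => hs.vv y fun k hk => hy k (min_eq_right hk.le).symm⟩
  refine ⟨bounded_of_cone _ _ (cone_real c hb), span_top _ _ hmid (OPoly_subset _ _), fun k => ?_, ?_,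
    extreme c _ hvu, extreme c _ hvv, fun n hn => ?_⟩
  · obtain ⟨x, h1, h2⟩ := irr_pt hs k
    refine ⟨cst x, fun h => ?_, fun l hl => ?_⟩
    · have h3 := h k
      rw [row_cst] at h3
      exact absurd h1 (not_lt.2 (by exact_mod_cast h3))
    · rw [row_cst]
      exact_mod_cast h2 l hl
  · rw [facets_eq hpt hne hmid (fun h => by omega), Set.ncard_eq_toFinset_card', Set.toFinset_range,
      Finset.card_image_of_injective _ (face_inj hpt)]
    simp
  · exact walk_rat c (fun x hx => hs.vu x fun k _ => hx k) _ u v n hn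

/-- The final statement follows from the failure of `NearBound` over the rationals. -/
theorem final (h : ¬ NearBound ℚ) :
    ∃ (ε : ℝ) (N : ℕ), 0 < ε ∧ ∀ d ≥ N, ∃ (A : Matrix (Fin (2 * d)) (Fin d) ℚ) (b : Fin (2 * d) → ℚ),
      Bornology.IsBounded (RPoly A b) ∧ finrank ℝ (vectorSpan ℝ (RPoly A b)) = d ∧
      (∀ k, ∃ z, z ∉ RPoly A b ∧ ∀ l, l ≠ k → (b l : ℝ) ≤ row A l z) ∧
      (Facets (RPoly A b)).ncard = 2 * d ∧
      ∃ u ∈ (RPoly A b).extremePoints ℝ, ∃ v ∈ (RPoly A b).extremePoints ℝ,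
        ∀ n, RWalk A b n u v → (1 + ε) * (d : ℝ) < n := by
  have h1 : ¬ AsymDStepB ℚ := fun h2 => h (((tfae ℚ).out 0 3).1 h2)
  unfold AsymDStepB at h1
  push Not at h1
  obtain ⟨m, hm⟩ := h1
  have hm0 : m ≠ 0 := by
    rintro rfl
    obtain ⟨c, u, v, _, _, h3⟩ := hm 0 le_rfl
    refine h3 0 (by simp) ⟨fun _ => u, rfl, Subsingleton.elim _ _, fun k => ?_, fun i hi => ?_⟩
    · exact k.elim0
    · omega
  have hm1 : (0 : ℝ) < m := by exact_mod_cast Nat.pos_of_ne_zero hm0
  refine ⟨1 / m, m, by positivity, fun d hd => ?_⟩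
  obtain ⟨c, u, v, hs, hb, h3⟩ := hm d hd
  obtain ⟨h4, h5, h6, h7, h8, h9, h10⟩ := spindle_real hs hb
  refine ⟨mat c, rhs c u v, h4, h5, h6, h7, cst u, h8, cst v, h9, fun n hn => ?_⟩
  have h11 : (m + 1) * d < m * n := by
    by_contra h12
    push Not at h12
    exact h3 n h12 (h10 n hn)
  have h12 : ((m : ℝ) + 1) * d < m * n := by exact_mod_cast h11
  have h13 : (1 + 1 / (m : ℝ)) * d = (((m : ℝ) + 1) * d) / m := by field_simp
  rw [h13, div_lt_iff₀ hm1]
  linarith

end Pool.Agent.Helper4.CDX
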