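import Pool.Agent.Helper4.CD.St2

/-!
# MP_a41ee4_co: from rational forms to real polyhedra
-/

set_option autoImplicit false

namespace Pool.Agent.Helper4.CDX

open Module Pool.Agent.Helper4.CD

/-- The value of the `k`-th row of `A` at the real point `z`. -/
noncomputable def row {d f : ℕ} (A : Matrix (Fin f) (Fin d) ℚ) (k : Fin f) (z : Fin d → ℝ) : ℝ :=
  ∑ i, (A k i : ℝ) * z i

/-- The polyhedron `{z ∈ ℝ^d : A z ≥ b}`. -/
def RPoly {d f : ℕ} (A : Matrix (Fin f) (Fin d) ℚ) (b : Fin f → ℚ) : Set (Fin d → ℝ) :=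
  {z | ∀ k, (b k : ℝ) ≤ row A k z}

/-- `g ≠ 0` and the support of `A g` is minimal among the supports of `A x`, `x ≠ 0`. -/
def RCircuit {d f : ℕ} (A : Matrix (Fin f) (Fin d) ℚ) (g : Fin d → ℝ) : Prop :=
  g ≠ 0 ∧ ∀ x : Fin d → ℝ, x ≠ 0 → {k | row A k x ≠ 0} ⊆ {k | row A k g ≠ 0} →
    {k | row A k x ≠ 0} = {k | row A k g ≠ 0}

/-- A circuit walk of length `n` from `u` to `v`. -/
def RWalk {d f : ℕ} (A : Matrix (Fin f) (Fin d) ℚ) (b : Fin f → ℚ) (n : ℕ) (u v : Fin d → ℝ) : Prop :=
  ∃ y : ℕ → Fin d → ℝ, y 0 = u ∧ y n = v ∧ (∀ i ≤ n, y i ∈ RPoly A b) ∧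
    ∀ i < n, ∃ (g : Fin d → ℝ) (α : ℝ), RCircuit A g ∧ 0 < α ∧ y (i + 1) = y i + α • g ∧
      ∀ β, α < β → y i + β • g ∉ RPoly A b

/-- The real point with rational coordinates `x`. -/
def cst {d : ℕ} (x : Fin d → ℚ) : Fin d → ℝ := fun i => (x i : ℝ)

/-- The matrix of the forms `c`. -/
def mat {d f : ℕ} (c : Fin f → Dual ℚ (Fin d → ℚ)) : Matrix (Fin f) (Fin d) ℚ :=
  fun k i => c k (Pi.single i 1)

section lin

variable {d f : ℕ} (A : Matrix (Fin f) (Fin d) ℚ) (k : Fin f)

theorem row_add (x y : Fin d → ℝ) : row A k (x + y) = row A k x + row A k y := by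
  simp only [row, Pi.add_apply, mul_add, Finset.sum_add_distrib]

theorem row_smul (a : ℝ) (x : Fin d → ℝ) : row A k (a • x) = a * row A k x := by
  simp only [row, Pi.smul_apply, smul_eq_mul, Finset.mul_sum]
  exact Finset.sum_congr rfl fun i _ => by ring

theorem row_neg (x : Fin d → ℝ) : row A k (-x) = -row A k x := by
  simp only [row, Pi.neg_apply, mul_neg, Finset.sum_neg_distrib]

theorem row_sub (x y : Fin d → ℝ) : row A k (x - y) = row A k x - row A k y := by
  rw [sub_eq_add_neg, row_add, row_neg, sub_eq_add_neg]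

theorem row_zero : row A k 0 = 0 := by simp [row]

theorem row_sum {ι : Type} (s : Finset ι) (x : ι → Fin d → ℝ) :
    row A k (∑ j ∈ s, x j) = ∑ j ∈ s, row A k (x j) := by
  classical
  induction s using Finset.induction_on with
  | empty => simp [row_zero]
  | insert a s ha ih => rw [Finset.sum_insert ha, row_add, ih, Finset.sum_insert ha]

theorem continuous_row : Continuous (row A k) := by
  unfold row
  exact continuous_finset_sum _ fun i _ => continuous_const.mul (continuous_apply i)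

end lin

theorem cst_add {d : ℕ} (x y : Fin d → ℚ) : cst (x + y) = cst x + cst y := by
  funext i; simp [cst]

theorem cst_smul {d : ℕ} (a : ℚ) (x : Fin d → ℚ) : cst (a • x) = (a : ℝ) • cst x := by
  funext i; simp [cst]

theorem cst_neg {d : ℕ} (x : Fin d → ℚ) : cst (-x) = -cst x := by
  funext i; simp [cst]

theorem cst_inj {d : ℕ} {x y : Fin d → ℚ} (h : cst x = cst y) : x = y := by
  funext i
  have := congrFun h i
  simpa [cst] using this

theorem cst_ne_zero {d : ℕ} {x : Fin d → ℚ} (h : x ≠ 0) : cst x ≠ 0 := by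
  intro h1
  exact h (cst_inj (h1.trans (by funext i; simp [cst])))

theorem row_cst {d f : ℕ} (c : Fin f → Dual ℚ (Fin d → ℚ)) (k : Fin f) (x : Fin d → ℚ) :
    row (mat c) k (cst x) = ((c k x : ℚ) : ℝ) := by
  have h : c k x = ∑ i, mat c k i * x i := by
    have h1 := LinearMap.pi_apply_eq_sum_univ (c k) x
    rw [h1]
    refine Finset.sum_congr rfl fun i _ => ?_
    rw [smul_eq_mul, mul_comm]
    congr 2
    funext j
    by_cases hij : i = j
    · subst hij; simp
    · simp [hij, Pi.single_apply, Ne.symm hij]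
  rw [h]
  simp only [row, cst]
  push_cast
  rfl

/-- A nonzero real vector in the kernel of some rational rows gives a nonzero rational vector. -/
theorem exists_rat {d f : ℕ} (c : Fin f → Dual ℚ (Fin d → ℚ)) {x : Fin d → ℝ} (hx : x ≠ 0) :
    ∃ x' : Fin d → ℚ, x' ≠ 0 ∧ ∀ k, row (mat c) k x = 0 → c k x' = 0 := by
  obtain ⟨j, hj⟩ : ∃ j, x j ≠ 0 := by
    by_contra h
    push Not at h
    exact hx (funext h)
  obtain ⟨φ, hφ⟩ : ∃ φ : Dual ℚ ℝ, φ (x j) ≠ 0 := by
    by_contra h
    push Not at h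
    exact hj ((Module.forall_dual_apply_eq_zero_iff ℚ (x j)).1 h)
  refine ⟨fun i => φ (x i), fun h => hφ (congrFun h j), fun k hk => ?_⟩
  have h1 : c k (fun i => φ (x i)) = ∑ i, mat c k i * φ (x i) := by
    have h2 := row_cst c k (fun i => φ (x i))
    have h3 : row (mat c) k (cst fun i => φ (x i)) = ((∑ i, mat c k i * φ (x i) : ℚ) : ℝ) := by
      simp only [row, cst]
      push_cast
      rfl
    rw [h3] at h2
    exact_mod_cast h2.symm
  rw [h1]
  have h4 : φ (row (mat c) k x) = ∑ i, mat c k i * φ (x i) := by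
    simp only [row]
    rw [map_sum]
    refine Finset.sum_congr rfl fun i _ => ?_
    have h5 : ((mat c k i : ℚ) : ℝ) * x i = (mat c k i) • x i := by
      rw [Rat.smul_def]
    rw [h5, map_smul, smul_eq_mul]
  rw [← h4, hk, map_zero]

/-- The rational rows have trivial real kernel. -/
theorem ker_real {d f : ℕ} (c : Fin f → Dual ℚ (Fin d → ℚ)) (S : Set (Fin f))
    (h : ∀ x : Fin d → ℚ, (∀ k ∈ S, c k x = 0) → x = 0) {x : Fin d → ℝ}
    (hx : ∀ k ∈ S, row (mat c) k x = 0) : x = 0 := by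
  by_contra h1
  obtain ⟨x', h2, h3⟩ := exists_rat c h1
  exact h2 (h x' fun k hk => h3 k (hx k hk))

/-- Real circuits of rational rows are multiples of rational circuits. -/
theorem circuit_rat {d f : ℕ} (c : Fin f → Dual ℚ (Fin d → ℚ))
    (hc : ∀ x : Fin d → ℚ, (∀ k, c k x = 0) → x = 0) {g : Fin d → ℝ} (hg : RCircuit (mat c) g) :
    ∃ (g' : Fin d → ℚ) (t : ℝ), IsCircuit c g' ∧ 0 < t ∧ g = t • cst g' := by
  obtain ⟨hg0, hmin⟩ := hg
  obtain ⟨k0, hk0⟩ : ∃ k, row (mat c) k g ≠ 0 := by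
    by_contra h
    push Not at h
    exact hg0 (ker_real c Set.univ (fun x hx => hc x fun k => hx k trivial) fun k _ => h k)
  have key : ∀ x : Fin d → ℝ, (∀ k, row (mat c) k g = 0 → row (mat c) k x = 0) →
      x = (row (mat c) k0 x / row (mat c) k0 g) • g := by
    intro x hx
    by_contra hne
    set y := x - (row (mat c) k0 x / row (mat c) k0 g) • g with hy
    have hy0 : y ≠ 0 := fun h => hne (sub_eq_zero.1 h)
    have h1 : row (mat c) k0 y = 0 := by
      rw [hy, row_sub, row_smul]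
      field_simp
      ring
    have h2 : {k | row (mat c) k y ≠ 0} ⊆ {k | row (mat c) k g ≠ 0} := by
      intro k hk hkg
      refine hk ?_
      rw [hy, row_sub, row_smul, hkg, hx k hkg]
      ring
    have h3 := hmin y hy0 h2
    have h4 : k0 ∈ {k | row (mat c) k y ≠ 0} := by rw [h3]; exact hk0
    exact h4 h1
  obtain ⟨g1, hg1, hz1⟩ := exists_rat c hg0
  have h5 := key (cst g1) fun k hk => by rw [row_cst, hz1 k hk]; simp
  set s := row (mat c) k0 (cst g1) / row (mat c) k0 g with hs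
  have hs0 : s ≠ 0 := by
    intro h
    rw [h, zero_smul] at h5
    exact cst_ne_zero hg1 h5
  have hcirc : ∀ g2 : Fin d → ℚ, ∀ a : ℝ, a ≠ 0 → cst g2 = a • g → IsCircuit c g2 := by
    intro g2 a ha h6
    refine ⟨?_, ?_⟩
    · rintro rfl
      have h7 : a • g = 0 := by rw [← h6]; funext i; simp [cst]
      rcases smul_eq_zero.1 h7 with h8 | h8
      · exact ha h8
      · exact hg0 h8
    · intro x hx hxz k hk
      have h7 : {k | row (mat c) k (cst x) ≠ 0} ⊆ {k | row (mat c) k g ≠ 0} := by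
        intro l hl hlg
        apply hl
        rw [row_cst, hxz l, Rat.cast_zero]
        have h8 : row (mat c) l (cst g2) = 0 := by rw [h6, row_smul, hlg, mul_zero]
        rw [row_cst] at h8
        exact_mod_cast h8
      have h9 := hmin _ (cst_ne_zero hx) h7
      have h10 : row (mat c) k g = 0 := by
        by_contra h
        have h11 : k ∈ {k | row (mat c) k (cst x) ≠ 0} := by rw [h9]; exact h
        apply h11
        rw [row_cst, hk, Rat.cast_zero]
      have h12 : row (mat c) k (cst g2) = 0 := by rw [h6, row_smul, h10, mul_zero]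
      rw [row_cst] at h12
      exact_mod_cast h12
  rcases lt_or_gt_of_ne hs0 with h | h
  · refine ⟨-g1, (-s)⁻¹, hcirc (-g1) (-s) (neg_ne_zero.2 hs0) ?_, inv_pos.2 (neg_pos.2 h), ?_⟩
    · rw [cst_neg, h5, neg_smul]
    · rw [cst_neg, h5, ← neg_smul, smul_smul, inv_mul_cancel₀ (neg_ne_zero.2 hs0), one_smul]
  · refine ⟨g1, s⁻¹, hcirc g1 s hs0 h5, inv_pos.2 h, ?_⟩
    rw [h5, smul_smul, inv_mul_cancel₀ hs0, one_smul]

end Pool.Agent.Helper4.CDX
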