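import Pool.Agent.Helper4.CDX.M_BDD

/-!
# MP_a41ee4_co: spindles with `2 d` rows in dimension `d`
-/

set_option autoImplicit false

namespace Pool.Agent.Helper4.CDX

open Module Pool.Agent.Helper4.CD

theorem rhs_comm {d f : ℕ} (c : Fin f → Dual ℚ (Fin d → ℚ)) (u v : Fin d → ℚ) : rhs c u v = rhs c v u :=
  funext fun k => min_comm _ _

theorem spindle_symm {d f : ℕ} {c : Fin f → Dual ℚ (Fin d → ℚ)} {u v : Fin d → ℚ} (h : Spindle c u v) :
    Spindle c v u := ⟨fun k => (h.ne k).symm, h.vv, h.vu⟩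

/-- Rows with trivial common kernel: at least `d` of them. -/
theorem card_ge {d f : ℕ} (c : Fin f → Dual ℚ (Fin d → ℚ)) (S : Finset (Fin f))
    (h : ∀ x : Fin d → ℚ, (∀ k ∈ S, c k x = 0) → x = 0) : d ≤ S.card := by
  classical
  let Φ : (Fin d → ℚ) →ₗ[ℚ] (S → ℚ) := LinearMap.pi fun k => c k.1
  have hinj : Function.Injective Φ := by
    rw [← LinearMap.ker_eq_bot, LinearMap.ker_eq_bot']
    intro x hx
    refine h x fun k hk => ?_
    have := congrFun hx ⟨k, hk⟩
    simpa [Φ] using this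
  have h1 := LinearMap.finrank_le_finrank_of_injective hinj
  simpa using h1

/-- Exactly `d` rows with trivial common kernel take arbitrary values. -/
theorem surj_of_card {d f : ℕ} (c : Fin f → Dual ℚ (Fin d → ℚ)) (S : Finset (Fin f))
    (h : ∀ x : Fin d → ℚ, (∀ k ∈ S, c k x = 0) → x = 0) (hS : S.card = d) (w : Fin f → ℚ) :
    ∃ y : Fin d → ℚ, ∀ k ∈ S, c k y = w k := by
  classical
  let Φ : (Fin d → ℚ) →ₗ[ℚ] (S → ℚ) := LinearMap.pi fun k => c k.1
  have hinj : Function.Injective Φ := by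
    rw [← LinearMap.ker_eq_bot, LinearMap.ker_eq_bot']
    intro x hx
    refine h x fun k hk => ?_
    have := congrFun hx ⟨k, hk⟩
    simpa [Φ] using this
  have hdim : finrank ℚ (Fin d → ℚ) = finrank ℚ (S → ℚ) := by simp [hS]
  have hsurj : Function.Surjective Φ := (LinearMap.injective_iff_surjective_of_finrank_eq_finrank hdim).1 hinj
  obtain ⟨y, hy⟩ := hsurj fun k => w k.1
  refine ⟨y, fun k hk => ?_⟩
  have := congrFun hy ⟨k, hk⟩
  simpa [Φ] using this

/-- In a spindle with `2 d` rows, the rows tight at `u` take arbitrary values. -/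
theorem spindle_surj {d : ℕ} {c : Fin (2 * d) → Dual ℚ (Fin d → ℚ)} {u v : Fin d → ℚ} (hs : Spindle c u v)
    (w : Fin (2 * d) → ℚ) : ∃ y : Fin d → ℚ, ∀ k, c k u < c k v → c k y = w k := by
  classical
  set I : Finset (Fin (2 * d)) := Finset.univ.filter fun k => c k u < c k v with hI
  set J : Finset (Fin (2 * d)) := Finset.univ.filter fun k => ¬ c k u < c k v with hJ
  have hI1 : d ≤ I.card := card_ge c I fun x hx => hs.vu x fun k hk => hx k (by simpa [hI] using hk)
  have hJ1 : d ≤ J.card := card_ge c J fun x hx => hs.vv x fun k hk => hx k (by simpa [hJ] using hk.le)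
  have hIJ : I.card + J.card = 2 * d := by
    have := Finset.card_filter_add_card_filter_not (s := (Finset.univ : Finset (Fin (2 * d))))
      (fun k => c k u < c k v)
    simpa [hI, hJ] using this
  obtain ⟨y, hy⟩ := surj_of_card c I (fun x hx => hs.vu x fun k hk => hx k (by simpa [hI] using hk))
    (by omega) w
  exact ⟨y, fun k hk => hy k (by simpa [hI] using hk)⟩

/-- A point near `u` with prescribed slacks in the rows tight at `u`. -/
theorem near_pt {d : ℕ} {c : Fin (2 * d) → Dual ℚ (Fin d → ℚ)} {u v : Fin d → ℚ} (hs : Spindle c u v)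
    (w : Fin (2 * d) → ℚ) : ∃ (x : Fin d → ℚ) (ε : ℚ), 0 < ε ∧
      (∀ k, c k u < c k v → c k x = rhs c u v k + ε * w k) ∧ ∀ k, c k v < c k u → rhs c u v k < c k x := by
  obtain ⟨y, hy⟩ := spindle_surj hs w
  have h1 : ∀ k, ∃ ε : ℚ, 0 < ε ∧ ∀ t, 0 < t → t ≤ ε → c k v < c k u → rhs c u v k < c k (u + t • y) := by
    intro k
    rcases le_or_gt 0 (c k y) with hk | hk
    · refine ⟨1, one_pos, fun t ht _ h => ?_⟩
      rw [rhs, min_eq_right h.le, map_add, map_smul, smul_eq_mul]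
      have := mul_nonneg ht.le hk
      linarith
    · rcases lt_or_ge (c k v) (c k u) with h2 | h2
      · refine ⟨(c k u - c k v) / (-c k y) / 2, ?_, fun t ht hle h => ?_⟩
        · exact div_pos (div_pos (sub_pos.2 h2) (neg_pos.2 hk)) two_pos
        · rw [rhs, min_eq_right h.le, map_add, map_smul, smul_eq_mul]
          rw [div_div, le_div_iff₀ (mul_pos (neg_pos.2 hk) two_pos)] at hle
          nlinarith [sub_pos.2 h2]
      · exact ⟨1, one_pos, fun t _ _ h => absurd h (not_lt.2 h2)⟩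
  choose ε hε h2 using h1
  obtain ⟨δ, hδ, hle⟩ : ∃ δ : ℚ, 0 < δ ∧ ∀ k, δ ≤ ε k := by
    rcases isEmpty_or_nonempty (Fin (2 * d)) with he | he
    · exact ⟨1, one_pos, fun k => (he.false k).elim⟩
    · obtain ⟨k0, hk0⟩ := Finite.exists_min ε
      exact ⟨ε k0, hε k0, hk0⟩
  refine ⟨u + δ • y, δ, hδ, fun k hk => ?_, fun k hk => h2 k δ hδ (hle k) hk⟩
  rw [map_add, map_smul, smul_eq_mul, hy k hk, rhs, min_eq_left hk.le]

/-- For every row there is a point at which exactly this row is tight. -/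
theorem facet_pt {d : ℕ} {c : Fin (2 * d) → Dual ℚ (Fin d → ℚ)} {u v : Fin d → ℚ} (hs : Spindle c u v)
    (k0 : Fin (2 * d)) :
    ∃ x : Fin d → ℚ, c k0 x = rhs c u v k0 ∧ ∀ k, k ≠ k0 → rhs c u v k < c k x := by
  classical
  rcases lt_or_gt_of_ne (hs.ne k0) with h | h
  · obtain ⟨x, ε, hε, h1, h2⟩ := near_pt hs fun k => if k = k0 then 0 else 1
    refine ⟨x, ?_, fun k hk => ?_⟩
    · rw [h1 k0 h]; simp
    · rcases lt_or_gt_of_ne (hs.ne k) with h3 | h3
      · rw [h1 k h3]; simp [hk, hε]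
      · exact h2 k h3
  · obtain ⟨x, ε, hε, h1, h2⟩ := near_pt (spindle_symm hs) fun k => if k = k0 then 0 else 1
    rw [rhs_comm c v u] at h1 h2
    refine ⟨x, ?_, fun k hk => ?_⟩
    · rw [h1 k0 h]; simp
    · rcases lt_or_gt_of_ne (hs.ne k) with h3 | h3
      · exact h2 k h3
      · rw [h1 k h3]; simp [hk, hε]

/-- For every row there is a point which violates exactly this row. -/
theorem irr_pt {d : ℕ} {c : Fin (2 * d) → Dual ℚ (Fin d → ℚ)} {u v : Fin d → ℚ} (hs : Spindle c u v)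
    (k0 : Fin (2 * d)) :
    ∃ x : Fin d → ℚ, c k0 x < rhs c u v k0 ∧ ∀ k, k ≠ k0 → rhs c u v k ≤ c k x := by
  classical
  rcases lt_or_gt_of_ne (hs.ne k0) with h | h
  · obtain ⟨x, ε, hε, h1, h2⟩ := near_pt hs fun k => if k = k0 then -1 else 1
    refine ⟨x, ?_, fun k hk => ?_⟩
    · rw [h1 k0 h]; simp [hε]
    · rcases lt_or_gt_of_ne (hs.ne k) with h3 | h3
      · rw [h1 k h3]; simp [hk, hε.le]
      · exact (h2 k h3).le
  · obtain ⟨x, ε, hε, h1, h2⟩ := near_pt (spindle_symm hs) fun k => if k = k0 then -1 else 1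
    rw [rhs_comm c v u] at h1 h2
    refine ⟨x, ?_, fun k hk => ?_⟩
    · rw [h1 k0 h]; simp [hε]
    · rcases lt_or_gt_of_ne (hs.ne k) with h3 | h3
      · exact (h2 k h3).le
      · rw [h1 k h3]; simp [hk, hε.le]

end Pool.Agent.Helper4.CDX
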