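import Pool.Agent.Helper4.CDX.M_REAL

/-!
# MP_a41ee4_co: real circuit walks of rational polyhedra between rational points are rational
-/

set_option autoImplicit false

namespace Pool.Agent.Helper4.CDX

open Module Pool.Agent.Helper4.CD

/-- If `y` is feasible and every row which decreases along `g` is slack at `y`, then `y` can be moved along `g`. -/
theorem move_on {d f : ℕ} (A : Matrix (Fin f) (Fin d) ℚ) (b : Fin f → ℚ) {y g : Fin d → ℝ}
    (hy : y ∈ RPoly A b) (h : ∀ k, row A k g < 0 → (b k : ℝ) < row A k y) :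
    ∃ ε : ℝ, 0 < ε ∧ y + ε • g ∈ RPoly A b := by
  have h1 : ∀ k, ∃ ε : ℝ, 0 < ε ∧ ∀ t, 0 ≤ t → t ≤ ε → (b k : ℝ) ≤ row A k (y + t • g) := by
    intro k
    rcases lt_or_ge (row A k g) 0 with hk | hk
    · refine ⟨(row A k y - b k) / (-row A k g), div_pos (sub_pos.2 (h k hk)) (neg_pos.2 hk), fun t _ ht => ?_⟩
      rw [row_add, row_smul]
      rw [le_div_iff₀ (neg_pos.2 hk)] at ht
      linarith
    · refine ⟨1, one_pos, fun t ht _ => ?_⟩
      rw [row_add, row_smul]
      have := hy k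
      nlinarith
  choose ε hε h2 using h1
  obtain ⟨δ, hδ, hle⟩ : ∃ δ : ℝ, 0 < δ ∧ ∀ k, δ ≤ ε k := by
    rcases isEmpty_or_nonempty (Fin f) with he | he
    · exact ⟨1, one_pos, fun k => (he.false k).elim⟩
    · obtain ⟨k0, hk0⟩ := Finite.exists_min ε
      exact ⟨ε k0, hε k0, hk0⟩
  exact ⟨δ, hδ, fun k => h2 k δ hδ.le (hle k)⟩

theorem poly_cst {d f : ℕ} (c : Fin f → Dual ℚ (Fin d → ℚ)) (b : Fin f → ℚ) (x : Fin d → ℚ) :
    cst x ∈ RPoly (mat c) b ↔ x ∈ Poly c b := by
  constructor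
  · intro h k
    have := h k
    rw [row_cst] at this
    exact_mod_cast this
  · intro h k
    rw [row_cst]
    exact_mod_cast h k

/-- A real step from a rational point is a rational step. -/
theorem step_rat {d f : ℕ} (c : Fin f → Dual ℚ (Fin d → ℚ))
    (hc : ∀ x : Fin d → ℚ, (∀ k, c k x = 0) → x = 0) (b : Fin f → ℚ) (x : Fin d → ℚ) {y g : Fin d → ℝ} {α : ℝ}
    (hg : RCircuit (mat c) g) (hα : 0 < α) (hy : y = cst x + α • g) (hyP : y ∈ RPoly (mat c) b)
    (hmax : ∀ β, α < β → cst x + β • g ∉ RPoly (mat c) b) :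
    ∃ x' : Fin d → ℚ, y = cst x' ∧ Step c b x x' := by
  obtain ⟨g', t, hg', ht, hgt⟩ := circuit_rat c hc hg
  obtain ⟨k, hk1, hk2⟩ : ∃ k, row (mat c) k g < 0 ∧ row (mat c) k y ≤ b k := by
    by_contra h
    push Not at h
    obtain ⟨ε, hε, h1⟩ := move_on (mat c) b hyP h
    refine hmax (α + ε) (by linarith) ?_
    rw [add_smul, ← add_assoc, ← hy]
    exact h1
  have hk3 : row (mat c) k y = b k := le_antisymm hk2 (hyP k)
  have hneg : c k g' < 0 := by
    rw [hgt, row_smul, row_cst] at hk1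
    have : ((c k g' : ℚ) : ℝ) < 0 := by
      by_contra h
      push Not at h
      nlinarith
    exact_mod_cast this
  have hne : ((c k g' : ℚ) : ℝ) ≠ 0 := by exact_mod_cast hneg.ne
  set q : ℚ := (b k - c k x) / c k g' with hq
  have hαq : α * t = (q : ℝ) := by
    have h1 : row (mat c) k y = ((c k x : ℚ) : ℝ) + α * t * ((c k g' : ℚ) : ℝ) := by
      rw [hy, row_add, row_smul, hgt, row_smul, row_cst, row_cst]
      ring
    rw [hk3] at h1
    rw [hq]
    push_cast
    rw [eq_div_iff hne]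
    linarith
  have hyx : y = cst (x + q • g') := by
    rw [cst_add, cst_smul, ← hαq, hy, hgt, smul_smul]
  have hq0 : 0 < q := by
    have h1 : (0 : ℝ) < (q : ℝ) := by rw [← hαq]; exact mul_pos hα ht
    exact_mod_cast h1
  refine ⟨x + q • g', hyx, g', q, hg', hq0, rfl, ?_, fun β hβ hP => ?_⟩
  · rw [← poly_cst, ← hyx]; exact hyP
  · rw [← poly_cst, cst_add, cst_smul] at hP
    refine hmax (β / t) ?_ ?_
    · rw [lt_div_iff₀ ht, hαq]
      exact_mod_cast hβ
    · rw [hgt, smul_smul, div_mul_cancel₀ _ ht.ne']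
      exact hP

/-- Real circuit walks between rational points are rational circuit walks. -/
theorem walk_rat {d f : ℕ} (c : Fin f → Dual ℚ (Fin d → ℚ))
    (hc : ∀ x : Fin d → ℚ, (∀ k, c k x = 0) → x = 0) (b : Fin f → ℚ) (u v : Fin d → ℚ) (n : ℕ)
    (h : RWalk (mat c) b n (cst u) (cst v)) : Walk c b n u v := by
  obtain ⟨y, h0, hn, hP, hs⟩ := h
  have h1 : ∀ i, i ≤ n → ∃ x : Fin d → ℚ, y i = cst x := by
    intro i
    induction i with
    | zero => exact fun _ => ⟨u, h0⟩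
    | succ i ih =>
      intro hi
      obtain ⟨x, hx⟩ := ih (by omega)
      obtain ⟨g, α, hg, hα, h2, h3⟩ := hs i (by omega)
      rw [hx] at h2 h3
      obtain ⟨x', h4, _⟩ := step_rat c hc b x hg hα h2 (hP (i + 1) hi) h3
      exact ⟨x', h4⟩
  classical
  let z : ℕ → Fin d → ℚ := fun i => if hi : i ≤ n then (h1 i hi).choose else 0
  have hz : ∀ i, i ≤ n → y i = cst (z i) := by
    intro i hi
    have : z i = (h1 i hi).choose := dif_pos hi
    rw [this]
    exact (h1 i hi).choose_spec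
  have hz0 : z 0 = u := cst_inj (by rw [← hz 0 (Nat.zero_le n), h0])
  refine ⟨z, hz0, cst_inj (by rw [← hz n le_rfl, hn]), ?_, fun i hi => ?_⟩
  · rw [← poly_cst, ← h0]
    exact hP 0 (Nat.zero_le n)
  · obtain ⟨g, α, hg, hα, h2, h3⟩ := hs i hi
    rw [hz i hi.le] at h2 h3
    obtain ⟨x', h4, h5⟩ := step_rat c hc b (z i) hg hα h2 (hP (i + 1) hi) h3
    have h6 : x' = z (i + 1) := cst_inj (by rw [← h4, hz (i + 1) hi])
    rw [← h6]
    exact h5

end Pool.Agent.Helper4.CDX
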